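import Pool.Agent.Lib.H51I.Main

set_option autoImplicit false

/-!
`BAIRE(ℤⁿ)` is not contained in `COMPUTABLE(ℤⁿ)`, for all large `n`. The definitions are in `Pool.Agent.Lib.H51I.Defs`.
-/

namespace Pool.Agent.Results.MP_4c94f5_lc.EveryLargeDimension

open Pool.Agent.H51I

/-- There is an `N ≥ 2` such that for every `n ≥ N` some locally checkable labelling problem `P` on `ℤⁿ` has the following
properties: every free Borel action of `ℤⁿ` on a Polish space (of any universe) has a Baire measurable `P`-labelling, but
not every free computable action of `ℤⁿ` on a computable set of natural numbers has a computable `P`-labelling; and indeed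
the action of `ℤⁿ` on itself by translations has no computable `P`-labelling. -/
theorem result.{u} : ∃ N : ℕ, 2 ≤ N ∧ ∀ n, N ≤ n → ∃ P : LCL n, P.Baire.{u} ∧ ¬ P.Comp ∧
    ¬ ∃ f : (Fin n → ℤ) → Fin P.k, Computable f ∧ ∀ x : Fin n → ℤ, (fun w : P.W => f (w + x)) ∈ P.A :=
  main.{u}

end Pool.Agent.Results.MP_4c94f5_lc.EveryLargeDimension
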